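import Mathlib

/-! Local existence for infinite systems of ordinary differential equations with diagonal damping,
by contraction in a space of bounded sequences of continuous functions. -/

set_option autoImplicit false

open Set Filter Topology MeasureTheory
open scoped BoundedContinuousFunction NNReal

namespace Pool.Agent.H280R3.LE

/-- clamping to `[0, τ]` -/
noncomputable def clm (τ t : ℝ) : ℝ := max 0 (min t τ)

lemma clm_nonneg (τ t : ℝ) : 0 ≤ clm τ t := le_max_left _ _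

lemma clm_le {τ : ℝ} (h : 0 ≤ τ) (t : ℝ) : clm τ t ≤ τ := max_le h (min_le_right _ _)

lemma clm_eq {τ t : ℝ} (h : t ∈ Icc 0 τ) : clm τ t = t := by
  unfold clm
  rw [min_eq_left h.2, max_eq_right h.1]

lemma clm_cont (τ : ℝ) : Continuous (clm τ) := by
  unfold clm
  fun_prop

structure Sys (G : ℕ → (ℕ → ℝ) → ℝ) (lam : ℕ → ℝ) (R L : ℝ) : Prop where
  L_nonneg : 0 ≤ L
  lam_nonneg : ∀ k, 0 ≤ lam k
  bd : ∀ k b, (∀ j, |b j| ≤ R) → |G k b| ≤ L
  lip : ∀ k b b' D, 0 ≤ D → (∀ j, |b j| ≤ R) → (∀ j, |b' j| ≤ R) → (∀ j, |b j - b' j| ≤ D) →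
    |G k b - G k b'| ≤ L * D
  co : ∀ k (b : ℝ → ℕ → ℝ), (∀ j, Continuous fun t => b t j) → (∀ t j, |b t j| ≤ R) →
    Continuous fun t => G k (b t)

section

variable {G : ℕ → (ℕ → ℝ) → ℝ} {lam : ℕ → ℝ} {R L : ℝ}

/-- one coordinate of the integral operator -/
noncomputable def op (l : ℝ) (b0 : ℝ) (g : ℝ → ℝ) (t : ℝ) : ℝ :=
  Real.exp (-(l * t)) * (b0 + ∫ s in (0 : ℝ)..t, Real.exp (l * s) * g s)

lemma op_cont (l b0 : ℝ) {g : ℝ → ℝ} (hg : Continuous g) : Continuous (op l b0 g) := by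
  unfold op
  have h1 : Continuous fun s => Real.exp (l * s) * g s := by fun_prop
  have h2 : Continuous fun t => ∫ s in (0 : ℝ)..t, Real.exp (l * s) * g s :=
    intervalIntegral.continuous_primitive (fun a b => h1.intervalIntegrable a b) 0
  fun_prop

lemma op_deriv (l b0 : ℝ) {g : ℝ → ℝ} (hg : Continuous g) (t : ℝ) :
    HasDerivAt (op l b0 g) (g t - l * op l b0 g t) t := by
  have h1 : Continuous fun s => Real.exp (l * s) * g s := by fun_prop
  have h2 : HasDerivAt (fun t => ∫ s in (0 : ℝ)..t, Real.exp (l * s) * g s)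
      (Real.exp (l * t) * g t) t :=
    intervalIntegral.integral_hasDerivAt_right (h1.intervalIntegrable _ _)
      (h1.stronglyMeasurableAtFilter _ _) h1.continuousAt
  have h3 : HasDerivAt (fun t => Real.exp (-(l * t))) (Real.exp (-(l * t)) * (-(l * 1))) t :=
    (((hasDerivAt_id t).const_mul l).neg).exp
  have h4 := h3.mul (h2.const_add b0)
  refine HasDerivAt.congr_deriv h4 ?_
  have h5 : Real.exp (-(l * t)) * Real.exp (l * t) = 1 := by
    rw [← Real.exp_add]; simp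
  unfold op
  calc Real.exp (-(l * t)) * (-(l * 1)) * (b0 + ∫ s in (0 : ℝ)..t, Real.exp (l * s) * g s)
        + Real.exp (-(l * t)) * (Real.exp (l * t) * g t)
      = (Real.exp (-(l * t)) * Real.exp (l * t)) * g t
        - l * (Real.exp (-(l * t)) * (b0 + ∫ s in (0 : ℝ)..t, Real.exp (l * s) * g s)) := by ring
    _ = _ := by rw [h5, one_mul]

lemma op_sub_le {l : ℝ} (hl : 0 ≤ l) (b0 : ℝ) {g g' : ℝ → ℝ} (hg : Continuous g)
    (hg' : Continuous g') {D : ℝ} (h : ∀ s, |g s - g' s| ≤ D) {t : ℝ} (ht : 0 ≤ t) :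
    |op l b0 g t - op l b0 g' t| ≤ D * t := by
  have h1 : Continuous fun s => Real.exp (l * s) * g s := by fun_prop
  have h1' : Continuous fun s => Real.exp (l * s) * g' s := by fun_prop
  have e : op l b0 g t - op l b0 g' t = Real.exp (-(l * t)) *
      ∫ s in (0 : ℝ)..t, (Real.exp (l * s) * g s - Real.exp (l * s) * g' s) := by
    rw [intervalIntegral.integral_sub (h1.intervalIntegrable _ _) (h1'.intervalIntegrable _ _)]
    unfold op
    ring
  rw [e, abs_mul, abs_of_pos (Real.exp_pos _)]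
  have h2 : ‖∫ s in (0 : ℝ)..t, (Real.exp (l * s) * g s - Real.exp (l * s) * g' s)‖
      ≤ (Real.exp (l * t) * D) * |t - 0| := by
    refine intervalIntegral.norm_integral_le_of_norm_le_const fun s hs => ?_
    rw [uIoc_of_le ht] at hs
    rw [← mul_sub, Real.norm_eq_abs, abs_mul, abs_of_pos (Real.exp_pos _)]
    refine mul_le_mul (Real.exp_le_exp.2 (mul_le_mul_of_nonneg_left hs.2 hl)) (h s) (abs_nonneg _)
      (Real.exp_pos _).le
  rw [Real.norm_eq_abs, sub_zero, abs_of_nonneg ht] at h2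
  have h5 : Real.exp (-(l * t)) * Real.exp (l * t) = 1 := by
    rw [← Real.exp_add]; simp
  calc Real.exp (-(l * t)) * |∫ s in (0 : ℝ)..t, (Real.exp (l * s) * g s - Real.exp (l * s) * g' s)|
      ≤ Real.exp (-(l * t)) * ((Real.exp (l * t) * D) * t) :=
        mul_le_mul_of_nonneg_left h2 (Real.exp_pos _).le
    _ = (Real.exp (-(l * t)) * Real.exp (l * t)) * (D * t) := by ring
    _ = D * t := by rw [h5, one_mul]

lemma op_zero_le {l : ℝ} (hl : 0 ≤ l) (b0 : ℝ) {t : ℝ} (ht : 0 ≤ t) :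
    |op l b0 (fun _ => 0) t| ≤ |b0| := by
  unfold op
  simp only [mul_zero, intervalIntegral.integral_zero, add_zero]
  rw [abs_mul, abs_of_pos (Real.exp_pos _)]
  refine mul_le_of_le_one_left (abs_nonneg _) ?_
  rw [Real.exp_le_one_iff]
  nlinarith [mul_nonneg hl ht]

/-- the ball of radius `R` -/
def Ball (R : ℝ) : Set ((ℕ × ℝ) →ᵇ ℝ) := {b | ∀ p, |b p| ≤ R}

lemma Ball_closed (R : ℝ) : IsClosed (Ball R) := by
  have e : Ball R = ⋂ p, {b : (ℕ × ℝ) →ᵇ ℝ | |b p| ≤ R} := by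
    ext b; simp [Ball]
  rw [e]
  refine isClosed_iInter fun p => ?_
  have : Continuous fun b : (ℕ × ℝ) →ᵇ ℝ => |b p| :=
    continuous_abs.comp (continuous_eval_const p)
  exact isClosed_le this continuous_const

lemma curve_cont (b : (ℕ × ℝ) →ᵇ ℝ) (j : ℕ) : Continuous fun t => b (j, t) :=
  b.continuous.comp (by fun_prop)

/-- the integral operator -/
noncomputable def FF (S : Sys G lam R L) (b0 : ℕ → ℝ) (h0 : ∀ k, |b0 k| ≤ R - 1) {τ : ℝ} (hτ : 0 ≤ τ)
    (hτL : L * τ ≤ 1) (b : Ball R) : Ball R :=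
  have hc : ∀ k, Continuous fun s => G k (fun j => b.1 (j, s)) := fun k =>
    S.co k (fun s j => b.1 (j, s)) (fun j => curve_cont b.1 j) (fun t j => b.2 (j, t))
  have hb : ∀ p : ℕ × ℝ, |op (lam p.1) (b0 p.1) (fun s => G p.1 (fun j => b.1 (j, s)))
      (clm τ p.2)| ≤ R := by
    intro p
    have h1 := op_sub_le (D := L) (S.lam_nonneg p.1) (b0 p.1) (hc p.1)
      (continuous_const (y := (0 : ℝ))) (fun s => by
        rw [sub_zero]
        exact S.bd p.1 _ fun j => b.2 (j, s)) (clm_nonneg τ p.2)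
    have h2 := op_zero_le (S.lam_nonneg p.1) (b0 p.1) (clm_nonneg τ p.2)
    have h3 : L * clm τ p.2 ≤ 1 := (mul_le_mul_of_nonneg_left (clm_le hτ p.2) S.L_nonneg).trans hτL
    have h4 := h0 p.1
    have h5 := abs_sub_abs_le_abs_sub (op (lam p.1) (b0 p.1) (fun s => G p.1 (fun j => b.1 (j, s)))
      (clm τ p.2)) (op (lam p.1) (b0 p.1) (fun _ => 0) (clm τ p.2))
    linarith
  ⟨BoundedContinuousFunction.ofNormedAddCommGroup
    (fun p : ℕ × ℝ => op (lam p.1) (b0 p.1) (fun s => G p.1 (fun j => b.1 (j, s))) (clm τ p.2))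
    (continuous_prod_of_discrete_left.2 fun k => by
      exact (op_cont (lam k) (b0 k) (hc k)).comp (clm_cont τ)) R
    (fun p => by rw [Real.norm_eq_abs]; exact hb p), hb⟩

lemma FF_apply (S : Sys G lam R L) (b0 : ℕ → ℝ) (h0 : ∀ k, |b0 k| ≤ R - 1) {τ : ℝ} (hτ : 0 ≤ τ)
    (hτL : L * τ ≤ 1) (b : Ball R) (k : ℕ) (t : ℝ) :
    (FF S b0 h0 hτ hτL b).1 (k, t) =
      op (lam k) (b0 k) (fun s => G k (fun j => b.1 (j, s))) (clm τ t) := rfl

/-- local existence -/
theorem exists_sol (S : Sys G lam R L) : ∃ τ > 0, ∀ b0 : ℕ → ℝ, (∀ k, |b0 k| ≤ R - 1) →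
    ∃ b : ℝ → ℕ → ℝ, b 0 = b0 ∧ (∀ t j, |b t j| ≤ R) ∧ (∀ j, Continuous fun t => b t j) ∧
      ∀ k, ∀ t ∈ Icc 0 τ, HasDerivWithinAt (fun s => b s k) (G k (b t) - lam k * b t k)
        (Icc 0 τ) t := by
  have hL := S.L_nonneg
  set τ : ℝ := 1 / (2 * (L + 1)) with hτd
  have hτ : 0 < τ := by positivity
  refine ⟨τ, hτ, fun b0 h0 => ?_⟩
  have hτL : L * τ ≤ 1 / 2 := by
    rw [hτd, mul_one_div, div_le_div_iff₀ (by positivity) (by norm_num)]
    linarith
  have hτL1 : L * τ ≤ 1 := by linarith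
  set F := FF S b0 h0 hτ.le hτL1 with hF
  have : CompleteSpace (Ball R) := (Ball_closed R).completeSpace_coe
  have hR1 : 1 ≤ R := by
    have := (abs_nonneg _).trans (h0 0)
    linarith
  have : Nonempty (Ball R) := ⟨⟨0, fun p => by simp; linarith⟩⟩
  have hcon : ContractingWith (1 / 2 : ℝ≥0) F := by
    refine ⟨by norm_num, LipschitzWith.of_dist_le_mul fun b b' => ?_⟩
    have hc : ∀ (b : Ball R) (k : ℕ), Continuous fun s => G k (fun j => b.1 (j, s)) := fun b k =>
      S.co k (fun s j => b.1 (j, s)) (fun j => curve_cont b.1 j) (fun t j => b.2 (j, t))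
    rw [Subtype.dist_eq, Subtype.dist_eq]
    have hd0 : 0 ≤ dist b.1 b'.1 := dist_nonneg
    refine (BoundedContinuousFunction.dist_le (by positivity)).2 fun p => ?_
    obtain ⟨k, t⟩ := p
    rw [hF, FF_apply, FF_apply, Real.dist_eq]
    have h1 := op_sub_le (S.lam_nonneg k) (b0 k) (hc b k) (hc b' k)
      (D := L * dist b.1 b'.1) (fun s => by
        refine S.lip k _ _ _ hd0 (fun j => b.2 (j, s)) (fun j => b'.2 (j, s)) fun j => ?_
        rw [← Real.dist_eq]
        exact BoundedContinuousFunction.dist_coe_le_dist (j, s)) (clm_nonneg τ t)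
    refine h1.trans ?_
    have h2 := clm_le hτ.le t
    have h3 : L * clm τ t ≤ 1 / 2 := (mul_le_mul_of_nonneg_left h2 hL).trans hτL
    have e : (((1 / 2 : ℝ≥0)) : ℝ) = 1 / 2 := by norm_num
    rw [e]
    calc L * dist b.1 b'.1 * clm τ t = (L * clm τ t) * dist b.1 b'.1 := by ring
      _ ≤ 1 / 2 * dist b.1 b'.1 := mul_le_mul_of_nonneg_right h3 hd0
  set z := ContractingWith.fixedPoint F hcon with hz
  have hfix : F z = z := hcon.fixedPoint_isFixedPt
  have hzt : ∀ k t, z.1 (k, t) = op (lam k) (b0 k) (fun s => G k (fun j => z.1 (j, s)))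
      (clm τ t) := by
    intro k t
    conv_lhs => rw [← hfix]
    rw [hF, FF_apply]
  have hc : ∀ (k : ℕ), Continuous fun s => G k (fun j => z.1 (j, s)) := fun k =>
    S.co k (fun s j => z.1 (j, s)) (fun j => curve_cont z.1 j) (fun t j => z.2 (j, t))
  refine ⟨fun t j => z.1 (j, t), ?_, fun t j => z.2 (j, t), fun j => curve_cont z.1 j, ?_⟩
  · funext k
    show z.1 (k, 0) = b0 k
    rw [hzt, clm_eq ⟨le_rfl, hτ.le⟩]
    unfold op
    simp
  · intro k t ht
    have h1 := (op_deriv (lam k) (b0 k) (hc k) t).hasDerivWithinAt (s := Icc 0 τ)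
    have h2 : ∀ s ∈ Icc 0 τ, z.1 (k, s) =
        op (lam k) (b0 k) (fun s => G k (fun j => z.1 (j, s))) s := by
      intro s hs
      rw [hzt, clm_eq hs]
    show HasDerivWithinAt (fun s => z.1 (k, s)) (G k (fun j => z.1 (j, t)) - lam k * z.1 (k, t)) _ _
    rw [h2 t ht]
    exact h1.congr h2 (h2 t ht)

end

end Pool.Agent.H280R3.LE
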