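import Mathlib
import Pool.Agent.H280R3.LE.Abs
import Pool.Agent.H280R3.LE.Field
import Pool.Agent.H402R3.Unif

/-! Local existence for the projected Navier–Stokes (`ν > 0`) and Euler (`ν = 0`) equations. -/

set_option autoImplicit false

open Set MeasureTheory Filter Topology Finset
open scoped RealInnerProductSpace ContDiff

namespace Pool.Agent.H280R3.LE

open Pool.Agent.H402R3

section

variable {φ ρ ψ : V → V} {x₁ : V} {M ε : ℕ → ℝ}

lemma M_two (S : Scl M ε) (n : ℕ) : 2 ≤ M n ^ 2 := by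
  induction n with
  | zero => exact S.M0
  | succ n ih => linarith [S.M_succ n]

lemma M_one (S : Scl M ε) (n : ℕ) : 1 ≤ M n := by
  have h1 := M_two S n
  have h2 := S.M_pos n
  nlinarith

lemma M_eight (S : Scl M ε) (n : ℕ) : 8 * M n ≤ M (n + 1) := by
  have h1 := S.M_succ n
  have h2 := S.M_pos (n + 1)
  have h3 : (8 * M n) ^ 2 ≤ M (n + 1) ^ 2 := by
    calc (8 * M n) ^ 2 = 64 * M n ^ 2 := by ring
      _ ≤ _ := h1
  exact le_of_sq_le_sq h3 h2.le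

lemma M_geo (S : Scl M ε) (n : ℕ) : (8 : ℝ) ^ n ≤ M n := by
  induction n with
  | zero => simpa using M_one S 0
  | succ n ih =>
    rw [pow_succ]
    linarith [M_eight S n]

lemma M_mono (S : Scl M ε) : Monotone M := by
  refine monotone_nat_of_le_succ fun n => ?_
  linarith [M_eight S n, S.M_pos n]

lemma Minv_summable (S : Scl M ε) : Summable fun n => (M n)⁻¹ := by
  refine Summable.of_nonneg_of_le (fun n => inv_nonneg.2 (S.M_pos n).le) (fun n => ?_)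
    (summable_geometric_of_lt_one (r := (1 / 8 : ℝ)) (by norm_num) (by norm_num))
  rw [one_div, inv_pow]
  exact inv_anti₀ (by positivity) (M_geo S n)

lemma eps_summable (S : Scl M ε) : Summable fun n => M n ^ 11 * ε n := by
  have h0 : Summable fun n => Real.sqrt (ε n) := by simpa using S.summ 0
  have h1 : ∀ n, Real.sqrt (ε n) ≤ ∑' m, Real.sqrt (ε m) := fun n =>
    h0.le_tsum n fun _ _ => Real.sqrt_nonneg _
  refine Summable.of_nonneg_of_le (fun n => ?_) (fun n => ?_)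
    ((S.summ 11).mul_left (∑' m, Real.sqrt (ε m)))
  · have := S.M_pos n
    have := S.ε_pos n
    positivity
  · have h2 : ε n = Real.sqrt (ε n) * Real.sqrt (ε n) := (Real.mul_self_sqrt (S.ε_pos n).le).symm
    have h3 : 0 ≤ Real.sqrt (ε n) * M n ^ 11 := by
      have := S.M_pos n
      positivity
    calc M n ^ 11 * ε n = Real.sqrt (ε n) * (Real.sqrt (ε n) * M n ^ 11) := by
          conv_lhs => rw [h2]
          ring
      _ ≤ _ := mul_le_mul_of_nonneg_right (h1 n) h3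

/-- weights of the coefficients -/
noncomputable def om (M : ℕ → ℝ) : ℕ → ℝ
  | 0 => 1
  | (n + 1) => (M n ^ 6)⁻¹

lemma om_pos (S : Scl M ε) (k : ℕ) : 0 < om M k := by
  cases k with
  | zero => exact one_pos
  | succ n =>
    have := S.M_pos n
    show 0 < (M n ^ 6)⁻¹
    positivity

lemma om_one (S : Scl M ε) (k : ℕ) : om M k ≤ 1 := by
  cases k with
  | zero => exact le_rfl
  | succ n =>
    show (M n ^ 6)⁻¹ ≤ 1
    exact inv_le_one_of_one_le₀ (one_le_pow₀ (M_one S n))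

theorem exists_maj (P : Prof φ ρ ψ x₁) (S : Scl M ε) :
    ∃ θ : ℕ → ℝ, Maj (Fam φ ψ ρ M ε) (om M) θ := by
  obtain ⟨R1, hR1⟩ := P.φT.out
  obtain ⟨C0, hC0, hC0'⟩ := cs_bound P.φT.cont (fun x hx => (hR1 x hx).1)
  obtain ⟨C1, hC1, hC1'⟩ := cs_bound P.φT.contd (fun x hx => (hR1 x hx).2)
  have hPT := PP_TF P S
  obtain ⟨B0, hB0, hB0'⟩ := cs_bound hPT.cont (R := 3) (PP_zero P S)
  obtain ⟨B1, hB1, hB1'⟩ := cs_bound hPT.contd (R := 3)
    (fun x hx => fderiv_zero_of (PP_zero P S) x hx)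
  refine ⟨fun k => Nat.casesOn k (B0 + B1) fun n => (C0 + C1) * (M n)⁻¹, ?_, ?_, ?_, ?_, ?_⟩
  · rw [← summable_nat_add_iff 1]
    exact (Minv_summable S).mul_left (C0 + C1)
  · intro k x
    cases k with
    | zero =>
      show |(1 : ℝ)| * ‖PP ψ ρ M ε x‖ ≤ B0 + B1
      rw [abs_one, one_mul]
      linarith [hB0' x]
    | succ n =>
      show |(M n ^ 6)⁻¹| * ‖sc (M n) φ x‖ ≤ (C0 + C1) * (M n)⁻¹
      have hM := S.M_pos n
      have hM1 := M_one S n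
      unfold sc
      rw [norm_smul, Real.norm_eq_abs, abs_of_pos (by positivity : 0 < M n ^ 3),
        abs_of_pos (by positivity : 0 < (M n ^ 6)⁻¹)]
      have h1 := hC0' (M n ^ 2 • x)
      calc (M n ^ 6)⁻¹ * (M n ^ 3 * ‖φ (M n ^ 2 • x)‖) ≤ (M n ^ 6)⁻¹ * (M n ^ 5 * (C0 + C1)) := by
            refine mul_le_mul_of_nonneg_left ?_ (by positivity)
            exact mul_le_mul (pow_le_pow_right₀ hM1 (by norm_num)) (by linarith) (norm_nonneg _)
              (by positivity)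
        _ = _ := by field_simp
  · intro k x
    cases k with
    | zero =>
      show |(1 : ℝ)| * ‖fderiv ℝ (PP ψ ρ M ε) x‖ ≤ B0 + B1
      rw [abs_one, one_mul]
      linarith [hB1' x]
    | succ n =>
      show |(M n ^ 6)⁻¹| * ‖fderiv ℝ (sc (M n) φ) x‖ ≤ (C0 + C1) * (M n)⁻¹
      have hM := S.M_pos n
      rw [sc_fderiv P.φT.diff, norm_smul, Real.norm_eq_abs, abs_of_pos (by positivity : 0 < M n ^ 5),
        abs_of_pos (by positivity : 0 < (M n ^ 6)⁻¹)]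
      have h1 := hC1' (M n ^ 2 • x)
      calc (M n ^ 6)⁻¹ * (M n ^ 5 * ‖fderiv ℝ φ (M n ^ 2 • x)‖)
          ≤ (M n ^ 6)⁻¹ * (M n ^ 5 * (C0 + C1)) := by
            refine mul_le_mul_of_nonneg_left ?_ (by positivity)
            exact mul_le_mul_of_nonneg_left (by linarith) (by positivity)
        _ = _ := by field_simp
  · exact Fam_TF P S
  · intro k x hx
    cases k with
    | zero => exact PP_zero P S x hx
    | succ n => exact φ_out P S n x (by linarith [S.rad_half n])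

lemma fam_orth (P : Prof φ ρ ψ x₁) (S : Scl M ε) (j k : ℕ) (h : j ≠ k) :
    ip (Fam φ ψ ρ M ε j) (Fam φ ψ ρ M ε k) = 0 := by
  cases j with
  | zero =>
    cases k with
    | zero => exact absurd rfl h
    | succ n => exact ip_φP P S n
  | succ m =>
    cases k with
    | zero =>
      rw [ip_comm]
      exact ip_φP P S m
    | succ n =>
      show ip (sc (M m) φ) (sc (M n) φ) = 0
      rw [ip_φφ' P S, if_neg (by omega)]

lemma fam_ip_pos (P : Prof φ ρ ψ x₁) (S : Scl M ε) (k : ℕ) :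
    0 < ip (Fam φ ψ ρ M ε k) (Fam φ ψ ρ M ε k) := by
  cases k with
  | zero => exact PP_ip_pos P S
  | succ n =>
    show 0 < ip (sc (M n) φ) (sc (M n) φ)
    rw [sc_ip (S.M_pos n)]
    exact φ_pos P

variable {θ b : ℕ → ℝ} {R : ℝ}

lemma af_UU (P : Prof φ ρ ψ x₁) (S : Scl M ε) (H : Maj (Fam φ ψ ρ M ε) (om M) θ)
    (hb : ∀ j, |b j| ≤ R) (n : ℕ) :
    af φ M (UU (Fam φ ψ ρ M ε) (om M) b) n = b (n + 1) * (M n ^ 6)⁻¹ := by
  have h1 := H.ip_eq hb (fam_orth P S) (n + 1)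
  have hF := φ_pos P
  unfold af
  show ip _ (sc (M n) φ) / ip φ φ = _
  have h2 : ip (UU (Fam φ ψ ρ M ε) (om M) b) (sc (M n) φ)
      = b (n + 1) * (M n ^ 6)⁻¹ * ip (sc (M n) φ) (sc (M n) φ) := h1
  rw [h2, sc_ip (S.M_pos n)]
  field_simp

lemma cf_UU (P : Prof φ ρ ψ x₁) (S : Scl M ε) (H : Maj (Fam φ ψ ρ M ε) (om M) θ)
    (hb : ∀ j, |b j| ≤ R) : cf ψ ρ M ε (UU (Fam φ ψ ρ M ε) (om M) b) = b 0 := by
  have h1 := H.ip_eq hb (fam_orth P S) 0
  have hF := PP_ip_pos P S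
  unfold cf
  have h2 : ip (UU (Fam φ ψ ρ M ε) (om M) b) (PP ψ ρ M ε)
      = b 0 * 1 * ip (PP ψ ρ M ε) (PP ψ ρ M ε) := h1
  rw [h2, mul_one]
  field_simp

/-- the quadratic bound for the shells -/
theorem tri_shell_le (P : Prof φ ρ ψ x₁) (S : Scl M ε) (H : Maj (Fam φ ψ ρ M ε) (om M) θ)
    (hb : ∀ j, |b j| ≤ R) (n : ℕ) :
    |tri (UU (Fam φ ψ ρ M ε) (om M) b) (sc (M n) φ) (UU (Fam φ ψ ρ M ε) (om M) b)| ≤
      2 * ((-hf φ φ) * (∑' m, (M m)⁻¹) + (-hf ρ ρ) * ∑' m, M m ^ 11 * ε m) * (M n ^ 6)⁻¹ * R ^ 2 := by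
  set v := UU (Fam φ ψ ρ M ε) (om M) b with hv
  have hvX : InX (Fam φ ψ ρ M ε) v := H.inX hb
  have hq : 0 < -hf φ φ := by linarith [P.q_pos]
  have hβ : 0 < -hf ρ ρ := by linarith [P.β_pos]
  set q := -hf φ φ
  set β := -hf ρ ρ
  set s₁ := ∑' m, (M m)⁻¹ with hs₁
  set s₂ := ∑' m, M m ^ 11 * ε m with hs₂
  have hM := S.M_pos
  have hE := S.ε_pos
  have hs1n : ∀ s : Finset ℕ, ∑ m ∈ s, (M m)⁻¹ ≤ s₁ := fun s =>
    (Minv_summable S).sum_le_tsum s fun m _ => inv_nonneg.2 (hM m).le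
  have hs2n : ∀ s : Finset ℕ, ∑ m ∈ s, M m ^ 11 * ε m ≤ s₂ := fun s =>
    (eps_summable S).sum_le_tsum s fun m _ => mul_nonneg (pow_nonneg (hM m).le _) (hE m).le
  have hs10 : 0 ≤ s₁ := by simpa using hs1n ∅
  have hs20 : 0 ≤ s₂ := by simpa using hs2n ∅
  have hR0 : 0 ≤ R := (abs_nonneg _).trans (hb 0)
  have haf : ∀ m, |af φ M v m| ≤ R * (M m ^ 6)⁻¹ := by
    intro m
    rw [hv, af_UU P S H hb, abs_mul, abs_of_pos (by have := hM m; positivity : 0 < (M m ^ 6)⁻¹)]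
    exact mul_le_mul_of_nonneg_right (hb _) (by have := hM m; positivity)
  have hcf : cf ψ ρ M ε v ^ 2 ≤ R ^ 2 := by
    rw [hv, cf_UU P S H hb]
    exact sq_le_sq' (by linarith [(abs_le.1 (hb 0)).1]) (abs_le.1 (hb 0)).2
  have hW : |Wf φ M v n| ≤ R * s₁ := by
    unfold Wf
    refine (abs_sum_le_sum_abs _ _).trans ?_
    refine (sum_le_sum fun m _ => ?_).trans
      ((Finset.mul_sum (range n) (fun m => (M m)⁻¹) R).symm.le.trans
        (mul_le_mul_of_nonneg_left (hs1n _) hR0))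
    rw [abs_mul, abs_of_pos (pow_pos (hM m) 5)]
    calc M m ^ 5 * |af φ M v m| ≤ M m ^ 5 * (R * (M m ^ 6)⁻¹) :=
          mul_le_mul_of_nonneg_left (haf m) (pow_pos (hM m) 5).le
      _ = R * (M m)⁻¹ := by have := hM m; field_simp
  -- the tail
  have hC : ∀ x, ‖v x‖ ≤ R * ∑' k, θ k ∧ ‖fderiv ℝ v x‖ ≤ R * ∑' k, θ k := fun x =>
    ⟨H.le0 hb x, H.le1 hb x⟩
  have htt0 : ∀ m, 0 ≤ tt φ ψ ρ M ε v m := fun m => tt_tendsto P S hvX hC m
  have hsplit : ∀ j, tt φ ψ ρ M ε v (n + 1) = (∑ l ∈ Finset.Ico (n + 1) (n + 1 + j),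
      (q * af φ M v l ^ 2 + cf ψ ρ M ε v ^ 2 * ε l * β)) + tt φ ψ ρ M ε v (n + 1 + j) := by
    intro j
    induction j with
    | zero => simp
    | succ j ih =>
      rw [← add_assoc, sum_Ico_succ_top (by omega), ih, tt_rec P S hvX (n + 1 + j)]
      ring
  have hsum : ∀ j, (∑ l ∈ Finset.Ico (n + 1) (n + 1 + j),
      (q * af φ M v l ^ 2 + cf ψ ρ M ε v ^ 2 * ε l * β))
      ≤ R ^ 2 * (M n ^ 11)⁻¹ * (q * s₁ + β * s₂) := by
    intro j
    have h1 : ∀ l ∈ Finset.Ico (n + 1) (n + 1 + j),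
        (q * af φ M v l ^ 2 + cf ψ ρ M ε v ^ 2 * ε l * β)
        ≤ R ^ 2 * (M n ^ 11)⁻¹ * (q * (M l)⁻¹ + β * (M l ^ 11 * ε l)) := by
      intro l hl
      have hnl : n ≤ l := by have := (Finset.mem_Ico.1 hl).1; omega
      have hMn := hM n
      have hMl := hM l
      have hεl := hE l
      have hMM : M n ≤ M l := M_mono S hnl
      have h11 : M n ^ 11 ≤ M l ^ 11 := pow_le_pow_left₀ hMn.le hMM 11
      have hinv : (M l ^ 11)⁻¹ ≤ (M n ^ 11)⁻¹ := inv_anti₀ (by positivity) h11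
      have e1 : af φ M v l ^ 2 ≤ R ^ 2 * ((M n ^ 11)⁻¹ * (M l)⁻¹) := by
        have h2 : af φ M v l ^ 2 ≤ (R * (M l ^ 6)⁻¹) ^ 2 := by
          rw [← sq_abs]
          exact pow_le_pow_left₀ (abs_nonneg _) (haf l) 2
        refine h2.trans ?_
        have h3 : (R * (M l ^ 6)⁻¹) ^ 2 = R ^ 2 * ((M l ^ 11)⁻¹ * (M l)⁻¹) := by
          field_simp
        rw [h3]
        refine mul_le_mul_of_nonneg_left ?_ (sq_nonneg _)
        exact mul_le_mul_of_nonneg_right hinv (by positivity)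
      have e2 : cf ψ ρ M ε v ^ 2 * ε l ≤ R ^ 2 * ((M n ^ 11)⁻¹ * (M l ^ 11 * ε l)) := by
        have h2 : ε l = (M l ^ 11)⁻¹ * (M l ^ 11 * ε l) := by field_simp
        have h3 : ε l ≤ (M n ^ 11)⁻¹ * (M l ^ 11 * ε l) := by
          conv_lhs => rw [h2]
          exact mul_le_mul_of_nonneg_right hinv (by positivity)
        exact mul_le_mul hcf h3 hεl.le (sq_nonneg _)
      calc q * af φ M v l ^ 2 + cf ψ ρ M ε v ^ 2 * ε l * β
          ≤ q * (R ^ 2 * ((M n ^ 11)⁻¹ * (M l)⁻¹))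
            + (R ^ 2 * ((M n ^ 11)⁻¹ * (M l ^ 11 * ε l))) * β :=
            add_le_add (mul_le_mul_of_nonneg_left e1 hq.le) (mul_le_mul_of_nonneg_right e2 hβ.le)
        _ = _ := by ring
    refine (sum_le_sum h1).trans ?_
    rw [← Finset.mul_sum, sum_add_distrib, ← Finset.mul_sum, ← Finset.mul_sum]
    have hMn := hM n
    refine mul_le_mul_of_nonneg_left ?_ (by positivity)
    exact add_le_add (mul_le_mul_of_nonneg_left (hs1n _) hq.le)
      (mul_le_mul_of_nonneg_left (hs2n _) hβ.le)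
  have htt : tt φ ψ ρ M ε v (n + 1) ≤ R ^ 2 * (M n ^ 11)⁻¹ * (q * s₁ + β * s₂) := by
    refine le_of_vr' S (K := ‖HH‖ * (R * ∑' k, θ k + R * (∑' k, θ k) * ‖HH‖) ^ 2)
      (n₀ := n + 1) fun m hm => ?_
    obtain ⟨j, rfl⟩ := Nat.exists_eq_add_of_le hm
    have h5 := (abs_le.mp (tt_le P S hvX hC (n + 1 + j))).2
    rw [hsplit j]
    linarith [hsum j]
  have hflux := flux_eq P S hvX n
  rw [hflux]
  have hMn := hM n
  set Aq := q * s₁ + β * s₂ with hAq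
  have hAq0 : 0 ≤ Aq := by positivity
  have t1 : |Wf φ M v n * af φ M v n * q| ≤ q * s₁ * (M n ^ 6)⁻¹ * R ^ 2 := by
    rw [abs_mul, abs_mul, abs_of_pos hq]
    calc |Wf φ M v n| * |af φ M v n| * q ≤ (R * s₁) * (R * (M n ^ 6)⁻¹) * q :=
          mul_le_mul_of_nonneg_right (mul_le_mul hW (haf n) (abs_nonneg _) (by positivity)) hq.le
      _ = _ := by ring
  have t2 : |M n ^ 5 * (cf ψ ρ M ε v ^ 2 * ε n * β)| ≤ β * s₂ * (M n ^ 6)⁻¹ * R ^ 2 := by
    have hεn := hE n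
    rw [abs_of_nonneg (by positivity)]
    have h2 : M n ^ 11 * ε n ≤ s₂ := by simpa using hs2n {n}
    calc M n ^ 5 * (cf ψ ρ M ε v ^ 2 * ε n * β)
        = β * (M n ^ 11 * ε n) * (M n ^ 6)⁻¹ * cf ψ ρ M ε v ^ 2 := by field_simp
      _ ≤ β * s₂ * (M n ^ 6)⁻¹ * R ^ 2 := by
          refine mul_le_mul ?_ hcf (sq_nonneg _) (by positivity)
          refine mul_le_mul_of_nonneg_right ?_ (by positivity)
          exact mul_le_mul_of_nonneg_left h2 hβ.le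
  have t3 : |M n ^ 5 * tt φ ψ ρ M ε v (n + 1)| ≤ Aq * (M n ^ 6)⁻¹ * R ^ 2 := by
    rw [abs_of_nonneg (mul_nonneg (by positivity) (htt0 _))]
    calc M n ^ 5 * tt φ ψ ρ M ε v (n + 1) ≤ M n ^ 5 * (R ^ 2 * (M n ^ 11)⁻¹ * Aq) :=
          mul_le_mul_of_nonneg_left htt (by positivity)
      _ = _ := by field_simp
  have h6 := abs_sub (Wf φ M v n * af φ M v n * q + M n ^ 5 * (cf ψ ρ M ε v ^ 2 * ε n * β))
    (M n ^ 5 * tt φ ψ ρ M ε v (n + 1))
  have h7 := abs_add_le (Wf φ M v n * af φ M v n * q) (M n ^ 5 * (cf ψ ρ M ε v ^ 2 * ε n * β))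
  have h8 : 2 * (q * s₁ + β * s₂) * (M n ^ 6)⁻¹ * R ^ 2 = q * s₁ * (M n ^ 6)⁻¹ * R ^ 2
      + β * s₂ * (M n ^ 6)⁻¹ * R ^ 2 + Aq * (M n ^ 6)⁻¹ * R ^ 2 := by
    rw [hAq]; ring
  linarith

end

end Pool.Agent.H280R3.LE
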