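import Mathlib
import Pool.Agent.H280R3.LE.Max
import Pool.Agent.H280R3.EU.Base
import Pool.Agent.H402R3.Profile

/-! Blow-up for the projected equations on `ℝ³`. -/

set_option autoImplicit false

open Set MeasureTheory Filter Topology Finset
open scoped RealInnerProductSpace ContDiff

namespace Pool.Agent.H280R3.LE

open Pool.Agent.H402R3 Pool.Agent.H280R3.EU

/-- `u` is the maximal solution from `u₀`, on `[0, Ts)`: it solves the projected equations on every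
`[0, T]` with `T < Ts`, it is smooth in space, it is the only solution on these intervals, and its
gradient is unbounded on `[0, Ts)`. -/
structure Maximal (ν : ℝ) (Φ : ℕ → V → V) (u₀ : V → V) (Ts : ℝ) (u : ℝ → V → V) : Prop where
  pos : 0 < Ts
  sol : ∀ T ∈ Ioo 0 Ts, GSol ν Φ u₀ T u
  smooth : ∀ t ∈ Ico 0 Ts, ContDiff ℝ ∞ (u t)
  uniq : ∀ T ∈ Ioo 0 Ts, ∀ v, GSol ν Φ u₀ T v → ∀ t ∈ Icc 0 T, v t = u t
  blowup : ∀ C, ∃ t ∈ Ico 0 Ts, ∃ x, C < ‖fderiv ℝ (u t) x‖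

/-- after the blow-up time there is no solution -/
theorem Maximal.none {ν : ℝ} {Φ : ℕ → V → V} {u₀ : V → V} {Ts : ℝ} {u : ℝ → V → V}
    (h : Maximal ν Φ u₀ Ts u) {T : ℝ} (hT : Ts ≤ T) (v : ℝ → V → V) : ¬ GSol ν Φ u₀ T v := by
  intro hv
  obtain ⟨C, hC⟩ := hv.bdd
  obtain ⟨t, ht, x, hx⟩ := h.blowup C
  have hpos := h.pos
  set T' := (t + Ts) / 2 with hT'
  have h1 : T' ∈ Ioo 0 Ts := ⟨by rw [hT']; linarith [ht.1], by rw [hT']; linarith [ht.2]⟩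
  have h2 := h.uniq T' h1 v (gsol_restrict hv (h1.2.le.trans hT)) t
    ⟨ht.1, by rw [hT']; linarith [ht.2]⟩
  have h3 := (hC t ⟨ht.1, ht.2.le.trans hT⟩ x).2
  rw [h2] at h3
  linarith

theorem main_max {φ ρ ψ : V → V} {x₁ : V} (P : Prof φ ρ ψ x₁) {ν : ℝ} (hν : 0 ≤ ν) :
    ∃ lam d Ts : ℝ, ∃ u : ℝ → V → V, Scl (MM lam) (EE lam) ∧
      u00 φ ψ ρ lam d ∈ Submodule.span ℝ (range (Fam φ ψ ρ (MM lam) (EE lam))) ∧
      Maximal ν (Fam φ ψ ρ (MM lam) (EE lam)) (u00 φ ψ ρ lam d) Ts u := by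
  obtain ⟨T0, hT0, lam, d, S, h⟩ := main_prof0 P hν
  have hspan : u00 φ ψ ρ lam d ∈ Submodule.span ℝ (range (Fam φ ψ ρ (MM lam) (EE lam))) := by
    have h0 : ∀ k, Fam φ ψ ρ (MM lam) (EE lam) k
        ∈ Submodule.span ℝ (range (Fam φ ψ ρ (MM lam) (EE lam))) :=
      fun k => Submodule.subset_span ⟨k, rfl⟩
    exact Submodule.add_mem _ (Submodule.add_mem _ (h0 1) (Submodule.smul_mem _ d (h0 2))) (h0 0)
  obtain ⟨Ts, hTs, _, u, h1, h2, h3, h4⟩ := max_sol P S hν hspan h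
  exact ⟨lam, d, Ts, u, S, hspan, hTs, h1, h2, h3, h4⟩

lemma Fam_smooth {φ ρ ψ : V → V} {x₁ : V} (P : Prof φ ρ ψ x₁) {M ε : ℕ → ℝ} (S : Scl M ε)
    (k : ℕ) : ContDiff ℝ ∞ (Fam φ ψ ρ M ε k) := by
  cases k with
  | zero => exact PP_smooth P S
  | succ n => exact sc_cd P.φs

/-- the statement on `ℝ³` -/
theorem space_max (ν : ℝ) (hν : 0 ≤ ν) :
    ∃ (Φ : ℕ → V → V) (u₀ : V → V) (Ts : ℝ) (u : ℝ → V → V),
      (∀ k, ContDiff ℝ ∞ (Φ k) ∧ HasCompactSupport (Φ k) ∧ ∀ x, divg (Φ k) x = 0) ∧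
      u₀ ∈ Submodule.span ℝ (range Φ) ∧ Maximal ν Φ u₀ Ts u := by
  obtain ⟨φ, ρ, ψ, x₁, P⟩ := exists_prof
  obtain ⟨lam, d, Ts, u, S, h1, h2⟩ := main_max P hν
  exact ⟨_, _, Ts, u, fun k => ⟨Fam_smooth P S k, (Fam_TF P S k).cs, (Fam_TF P S k).dv⟩, h1, h2⟩

end Pool.Agent.H280R3.LE
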