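import Mathlib
import Pool.Agent.H280R3.LE.Stat
import Pool.Agent.H280R3.EU.TorT

/-! The maximal solution of the projected Euler equations on the torus. -/

set_option autoImplicit false

open Set MeasureTheory Filter Topology Finset
open scoped RealInnerProductSpace ContDiff

namespace Pool.Agent.H280R3.LE

open Pool.Agent.H402R3 Pool.Agent.H280R3.EU

/-- `u` is the maximal solution from `u₀`, on `[0, Ts)`: it solves the projected Euler equations on
every `[0, T]` with `T < Ts` and is smooth in space; every solution on an interval `[0, T]` has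
`T < Ts` and agrees with `u`; the velocity gradient of `u` is unbounded on `[0, Ts)`. -/
structure TorMax (Ψ : ℕ → V → V) (u₀ : V → V) (Ts : ℝ) (u : ℝ → V → V) : Prop where
  sol : ∀ T, 0 ≤ T → T < Ts → TorSol Ψ u₀ T u
  smooth : ∀ t ∈ Ico 0 Ts, ContDiff ℝ ∞ (u t)
  uniq : ∀ T v, 0 ≤ T → TorSol Ψ u₀ T v → T < Ts ∧ ∀ t ∈ Icc 0 T, v t = u t
  blowup : ∀ C, ∃ t ∈ Ico 0 Ts, ∃ x, C < ‖fderiv ℝ (u t) x‖

section

variable {Φ : ℕ → V → V} {u0 : V → V} {T : ℝ} {u v : ℝ → V → V}

theorem space_to_tor (hΦo : ∀ k, Out (Φ k))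
    (hX : ∀ v, InX Φ v → Out v) (h : GSol 0 Φ u0 T v) :
    TorSol (fun k => pe (Φ k)) (pe u0) T (fun t => pe (v t)) := by
  have ho : ∀ t ∈ Icc 0 T, Out (v t) := fun t ht => hX _ (h.mem t ht)
  refine ⟨?_, fun t _ => pe_per _, fun t ht => pe_contDiff (ho t ht) (h.mem t ht).1.cd,
    fun t ht x => pe_div (ho t ht) (h.mem t ht).1.dv x, ?_, ?_, ?_⟩
  · show pe (v 0) = pe u0
    rw [h.init]
  · intro t ht η hη
    obtain ⟨w, hw, hle⟩ := (h.mem t ht).2 η hη
    have hwo := span_out hΦo hw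
    refine ⟨pe w, pe_span hw, le_trans (le_of_eq ?_) hle⟩
    refine int_cell (fun x hx => by simp [ho t ht x hx, hwo x hx]) fun x hx => ?_
    show ‖pe (v t) x - pe w x‖ ^ 2 = _
    rw [pe_cell (ho t ht) hx, pe_cell hwo hx]
  · obtain ⟨C, hC⟩ := h.bdd
    refine ⟨C, fun t ht x => ⟨(hC t ht (red x)).1, ?_⟩⟩
    show ‖fderiv ℝ (pe (v t)) x‖ ≤ C
    rw [pe_fderiv (ho t ht)]
    exact (hC t ht (red x)).2
  · intro k t ht
    have h1 := h.eq k t ht
    have e1 : ∀ s ∈ Icc 0 T, ∫ x in cell, ⟪pe (v s) x, pe (Φ k) x⟫ = ip (v s) (Φ k) := by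
      intro s hs
      refine int_cell (fun x hx => by simp [ho s hs x hx]) fun x hx => ?_
      rw [pe_cell (ho s hs) hx, pe_cell (hΦo k) hx]
    have e2 : ∫ x in cell, ⟪pe (v t) x, fderiv ℝ (pe (Φ k)) x (pe (v t) x)⟫
        = tri (v t) (Φ k) (v t) := by
      refine int_cell (fun x hx => by simp [ho t ht x hx]) fun x hx => ?_
      rw [pe_cell (ho t ht) hx, pe_fderiv_cell (hΦo k) hx]
    rw [e2]
    have h2 : tri (v t) (Φ k) (v t) - 0 * dir (v t) (Φ k) = tri (v t) (Φ k) (v t) := by ring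
    rw [h2] at h1
    exact h1.congr e1 (e1 t ht)

lemma per_int {f : V → V} (hf : Per f) (i : Fin 3) (n : ℤ) (x : V) :
    f (x + ((n : ℝ) * (2 * Real.pi)) • ev i) = f x := by
  have h1 : Function.Periodic (fun s : ℝ => f (x + s • ev i)) (2 * Real.pi) := by
    intro s
    show f (x + (s + 2 * Real.pi) • ev i) = f (x + s • ev i)
    rw [add_smul, ← add_assoc]
    exact hf i _
  have h2 := h1.int_mul n 0
  simp only [zero_add, zero_smul, add_zero] at h2
  exact h2

lemma per_red {f : V → V} (hf : Per f) (x : V) : f (red x) = f x := by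
  have e : x = red x + ((nn (x 0) : ℝ) * (2 * Real.pi)) • ev 0
      + ((nn (x 1) : ℝ) * (2 * Real.pi)) • ev 1 + ((nn (x 2) : ℝ) * (2 * Real.pi)) • ev 2 := by
    ext j
    fin_cases j <;> simp [ev, red_apply]
  conv_rhs => rw [e]
  rw [per_int hf, per_int hf, per_int hf]

lemma red_cell (x : V) : red x ∈ cell := by
  intro i
  rw [abs_red, AddCircle.norm_eq]
  have hpi := Real.pi_pos
  have h1 := abs_sub_round ((2 * Real.pi)⁻¹ * x i)
  have e : x i - (round ((2 * Real.pi)⁻¹ * x i) : ℝ) * (2 * Real.pi)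
      = (2 * Real.pi) * ((2 * Real.pi)⁻¹ * x i - round ((2 * Real.pi)⁻¹ * x i)) := by
    field_simp
  rw [e, abs_mul, abs_of_pos (by positivity)]
  nlinarith

lemma cell_convex : Convex ℝ cell := by
  rw [cell_eq]
  refine convex_iInter fun i => ?_
  intro x hx y hy a b ha hb hab
  simp only [Set.mem_preimage, Set.mem_Iic] at hx hy ⊢
  have e : (a • x + b • y) i = a * x i + b * y i := by simp
  rw [e]
  refine (abs_add_le _ _).trans ?_
  rw [abs_mul, abs_mul, abs_of_nonneg ha, abs_of_nonneg hb]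
  have h1 := mul_le_mul_of_nonneg_left hx ha
  have h2 := mul_le_mul_of_nonneg_left hy hb
  calc a * |x i| + b * |y i| ≤ a * Real.pi + b * Real.pi := add_le_add h1 h2
    _ = Real.pi := by rw [← add_mul, hab, one_mul]

/-- a continuous periodic field vanishing in the cell outside the ball is the periodic extension
of its cut-off -/
lemma eq_pe {f : V → V} (hf : Per f) (hc : Continuous f)
    (hz : ∀ x ∈ interior cell, 3 < ‖x‖ → f x = 0) : f = pe (cutoff f) := by
  have hcell : ∀ y ∈ cell, 3 < ‖y‖ → f y = 0 := by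
    intro y hy h3
    have hne : (interior cell).Nonempty :=
      ⟨0, interior_mem_nhds.2 (cell_nhds (by simp : ‖(0 : V)‖ ≤ 3)) |> mem_of_mem_nhds⟩
    have hcl : y ∈ closure (interior cell) := by
      rw [cell_convex.closure_interior_eq_closure_of_nonempty_interior hne]
      exact subset_closure hy
    have ho : IsOpen {z : V | 3 < ‖z‖} := isOpen_lt continuous_const continuous_norm
    have hcl2 : y ∈ closure ({z : V | 3 < ‖z‖} ∩ interior cell) :=
      ho.inter_closure ⟨h3, hcl⟩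
    have hsub : ({z : V | 3 < ‖z‖} ∩ interior cell) ⊆ f ⁻¹' {0} := fun z hz' => hz z hz'.2 hz'.1
    have := closure_minimal hsub (isClosed_singleton.preimage hc) hcl2
    exact this
  funext x
  rw [← per_red hf x]
  show f (red x) = cutoff f (red x)
  unfold cutoff
  split_ifs with h
  · rfl
  · exact hcell _ (red_cell x) (not_le.1 h)

/-- the maximal solution on the torus from the maximal solution on the space -/
theorem tor_max (hΦ : ∀ k, TF (Φ k)) (hΦo : ∀ k, Out (Φ k)) (hX : ∀ v, InX Φ v → Out v)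
    (hu0 : Out u0) {Ts : ℝ} {w : ℝ → V → V} (h : Maximal 0 Φ u0 Ts w) :
    TorMax (fun k => pe (Φ k)) (pe u0) Ts (fun t => pe (w t)) := by
  have hpos := h.pos
  have hsol : ∀ T, 0 ≤ T → T < Ts → GSol 0 Φ u0 T w := by
    intro T h0 hT
    have h1 : (T + Ts) / 2 ∈ Ioo 0 Ts := ⟨by linarith, by linarith⟩
    exact gsol_restrict (h.sol _ h1) (by linarith)
  have hout : ∀ t ∈ Ico 0 Ts, Out (w t) := fun t ht =>
    hX _ ((hsol t ht.1 ht.2).mem t ⟨ht.1, le_rfl⟩)
  refine ⟨fun T h0 hT => space_to_tor hΦo hX (hsol T h0 hT),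
    fun t ht => pe_contDiff (hout t ht) (h.smooth t ht), ?_, ?_⟩
  · intro T z hT0 hz
    have h1 := to_space hΦ hΦo hu0 hT0 hz
    have h2 : T < Ts := by
      by_contra hcon
      exact h.none (not_lt.1 hcon) _ h1
    refine ⟨h2, fun t ht => ?_⟩
    have h3 : z t = pe (cutoff (z t)) := eq_pe (hz.per t ht) (hz.cd t ht).continuous
      fun x hx h3 => sol_zero (fun k => (hΦ k).cont) hΦo hz ht hx h3
    have h4 : cutoff (z t) = w t := by
      rcases hT0.eq_or_lt with h5 | h5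
      · have ht0 : t = 0 := le_antisymm (by rw [h5]; exact ht.2) ht.1
        subst ht0
        have := h1.init
        beta_reduce at this
        rw [this, (hsol 0 le_rfl hpos).init]
      · exact h.uniq T ⟨h5, h2⟩ _ h1 t ht
    rw [h3, h4]
  · intro C
    obtain ⟨t, ht, x, hx⟩ := h.blowup (max C 0)
    refine ⟨t, ht, x, (le_max_left C 0).trans_lt ?_⟩
    show _ < ‖fderiv ℝ (pe (w t)) x‖
    rw [pe_fderiv (hout t ht)]
    rcases le_or_gt ‖x‖ 3 with h3 | h3
    · rwa [red_ball h3]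
    · rw [fderiv_zero_of (hout t ht) x h3, norm_zero] at hx
      exact absurd hx (not_lt.mpr (le_max_right _ _))

end

/-- time scaling -/
theorem tor_scale {Ψ : ℕ → V → V} {u0 : V → V} {T c : ℝ} {u : ℝ → V → V} (hc : 0 < c)
    (hT : 0 < T) (h : TorSol Ψ u0 T u) :
    TorSol Ψ (c • u0) (T / c) (fun t => c • u (c * t)) := by
  have e : T / c / T = c⁻¹ := by field_simp
  have h1 : TorSol Ψ ((T / c / T) • (c • u0)) T u := by
    rw [e, smul_smul, inv_mul_cancel₀ hc.ne', one_smul]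
    exact h
  have h2 := time_scale (T0 := T / c) (by positivity) hT h1
  rw [e, inv_inv] at h2
  exact h2

theorem tor_restrict {Ψ : ℕ → V → V} {u0 : V → V} {T T' : ℝ} {u : ℝ → V → V}
    (h : TorSol Ψ u0 T u) (hT : T' ≤ T) : TorSol Ψ u0 T' u where
  init := h.init
  per t ht := h.per t ⟨ht.1, ht.2.trans hT⟩
  cd t ht := h.cd t ⟨ht.1, ht.2.trans hT⟩
  dv t ht := h.dv t ⟨ht.1, ht.2.trans hT⟩
  cl t ht := h.cl t ⟨ht.1, ht.2.trans hT⟩
  bdd := by
    obtain ⟨C, hC⟩ := h.bdd
    exact ⟨C, fun t ht => hC t ⟨ht.1, ht.2.trans hT⟩⟩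
  eq k t ht := (h.eq k t ⟨ht.1, ht.2.trans hT⟩).mono (Icc_subset_Icc le_rfl hT)

theorem TorMax.scale {Ψ : ℕ → V → V} {u0 : V → V} {Ts c : ℝ} {u : ℝ → V → V} (hc : 0 < c)
    (hTs : 0 < Ts) (h : TorMax Ψ u0 Ts u) :
    TorMax Ψ (c • u0) (Ts / c) (fun t => c • u (c * t)) := by
  have hci : 0 < c⁻¹ := by positivity
  have hmem : ∀ t ∈ Ico 0 (Ts / c), c * t ∈ Ico 0 Ts := by
    intro t ht
    have h2 := ht.2
    rw [lt_div_iff₀ hc] at h2
    exact ⟨mul_nonneg hc.le ht.1, by linarith⟩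
  refine ⟨?_, ?_, ?_, ?_⟩
  · intro T h0 hT
    have h1 : c * T < Ts := by rw [lt_div_iff₀ hc] at hT; linarith
    set T1 := (c * T + Ts) / 2 with hT1
    have h2 : 0 < T1 := by rw [hT1]; have := mul_nonneg hc.le h0; linarith
    have h3 := tor_scale hc h2 (h.sol T1 h2.le (by rw [hT1]; linarith))
    refine tor_restrict h3 ?_
    rw [le_div_iff₀ hc, hT1]
    linarith
  · intro t ht
    exact (h.smooth _ (hmem t ht)).const_smul c
  · intro T v h0 hv
    rcases h0.eq_or_lt with e0 | h0'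
    · subst e0
      refine ⟨by positivity, fun t ht => ?_⟩
      have ht0 : t = 0 := le_antisymm ht.2 ht.1
      subst ht0
      rw [hv.init, mul_zero, (h.sol 0 le_rfl hTs).init]
    · have h1 := tor_scale hci h0' hv
      rw [smul_smul, inv_mul_cancel₀ hc.ne', one_smul] at h1
      have e1 : T / c⁻¹ = c * T := by field_simp
      rw [e1] at h1
      obtain ⟨h2, h3⟩ := h.uniq _ _ (by positivity) h1
      refine ⟨by rw [lt_div_iff₀ hc]; linarith, fun t ht => ?_⟩
      have h4 := h3 (c * t) ⟨mul_nonneg hc.le ht.1, mul_le_mul_of_nonneg_left ht.2 hc.le⟩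
      have e2 : c⁻¹ * (c * t) = t := by field_simp
      rw [e2] at h4
      rw [← h4, smul_smul, mul_inv_cancel₀ hc.ne', one_smul]
  · intro C
    obtain ⟨t, ht, x, hx⟩ := h.blowup (C / c)
    refine ⟨t / c, ⟨div_nonneg ht.1 hc.le, div_lt_div_of_pos_right ht.2 hc⟩, x, ?_⟩
    have e1 : c * (t / c) = t := by field_simp
    rw [e1, fderiv_const_smul ((h.smooth t ht).differentiable (by simp)).differentiableAt,
      norm_smul, Real.norm_of_nonneg hc.le]
    rw [div_lt_iff₀ hc] at hx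
    linarith

/-- Blow-up at any prescribed time for a projection of the Euler equations on the torus. -/
theorem tor_main_max : ∃ Ψ : ℕ → V → V,
    (∀ k, ContDiff ℝ ∞ (Ψ k) ∧ Per (Ψ k) ∧ ∀ x, divg (Ψ k) x = 0) ∧
    ∀ T > 0, ∃ u₀ ∈ Submodule.span ℝ (range Ψ), ∃ u : ℝ → V → V, TorMax Ψ u₀ T u := by
  obtain ⟨φ, ρ, ψ, x₁, P⟩ := exists_prof
  obtain ⟨lam, d, Ts, w, S, hspan, hmax⟩ := main_max P (le_refl (0 : ℝ))
  set Φ := Fam φ ψ ρ (MM lam) (EE lam) with hΦd
  have hX : ∀ v, InX Φ v → Out v := fun v hv x hx => inX_out P S hv x hx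
  have hout : ∀ k, Out (Φ k) := by
    intro k
    refine hX _ ⟨Fam_TF P S k, fun η hη => ⟨Φ k, Submodule.subset_span ⟨k, rfl⟩, ?_⟩⟩
    simpa using hη.le
  have h1 := tor_max (fun k => Fam_TF P S k) hout hX (span_out hout hspan) hmax
  have hTs := hmax.pos
  refine ⟨fun k => pe (Φ k), fun k => ⟨pe_contDiff (hout k) (Fam_smooth P S k), pe_per _,
    pe_div (hout k) (Fam_TF P S k).dv⟩, fun T hT => ?_⟩
  have h2 := h1.scale (c := Ts / T) (by positivity) hTs
  have e : Ts / (Ts / T) = T := by field_simp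
  rw [e] at h2
  exact ⟨_, Submodule.smul_mem _ _ (pe_span hspan), _, h2⟩

end Pool.Agent.H280R3.LE
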